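import Pool.Agent.helper95.RF.SpecC2

set_option autoImplicit false

namespace Pool.Agent.RF

open Finset NumberField Pool.Agent.helper3.FT

theorem CLN (h1 : WIN_stmt) (h2 : WRE_stmt) (h3 : WRD_stmt) : CLN_stmt := by
  have _ := h1
  intro E k g M₂ c s₂ hq h5 hE hg
  obtain ⟨α, β, γ, hR⟩ := h2 k g c hq h5 hg
  have hcop : IsCoprime ((k.norm.natAbs ^ 3 : ℕ) : ℤ) (E : ℤ) := by
    rw [Nat.isCoprime_iff_coprime]
    exact hE.pow_left 3
  obtain ⟨u, v, huv⟩ := hcop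
  set m : ℤ := M₂.re with hm
  set n : ℤ := M₂.im with hn
  set q3 : ℤ := ((k.norm.natAbs ^ 3 : ℕ) : ℤ) with hq3
  refine ⟨E * α, E * β, E * γ, 2 * α * m + β * n, β * m + 2 * γ * n, v * (α * m ^ 2 + β * m * n + γ * n ^ 2 - s₂), ⟨?_, ?_, ?_⟩, ?_⟩
  · have h := Dvd.dvd.mul_left hR.ha (E : OO)
    have e : (E : OO) * (star g * (r5 * (α : OO) - (c : OO)) * star k ^ 2 - 2 * ph * (c : OO) * k ^ 2 * g) =
        star g * (r5 * (((E : ℤ) * α : ℤ) : OO) - ((c * (E : ℤ) : ℤ) : OO)) * star k ^ 2 - 2 * ph * ((c * (E : ℤ) : ℤ) : OO) * k ^ 2 * g := by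
      push_cast
      ring
    rw [e] at h
    exact h
  · have h := Dvd.dvd.mul_left hR.hb (E : OO)
    have e : (E : OO) * (star g * (r5 * (β : OO) - (c : OO)) * star k ^ 2 - 4 * ph ^ 2 * (c : OO) * k ^ 2 * g) =
        star g * (r5 * (((E : ℤ) * β : ℤ) : OO) - ((c * (E : ℤ) : ℤ) : OO)) * star k ^ 2 - 4 * ph ^ 2 * ((c * (E : ℤ) : ℤ) : OO) * k ^ 2 * g := by
      push_cast
      ring
    rw [e] at h
    exact h
  · have h := Dvd.dvd.mul_left hR.hc (E : OO)
    have e : (E : OO) * (star g * (r5 * (γ : OO) + (c : OO)) * star k ^ 2 - 2 * ph ^ 3 * (c : OO) * k ^ 2 * g) =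
        star g * (r5 * (((E : ℤ) * γ : ℤ) : OO) + ((c * (E : ℤ) : ℤ) : OO)) * star k ^ 2 - 2 * ph ^ 3 * ((c * (E : ℤ) : ℤ) : OO) * k ^ 2 * g := by
      push_cast
      ring
    rw [e] at h
    exact h
  · intro x y z
    have hM : M₂ + (E : OO) * (⟨x, y⟩ : OO) = (⟨m + E * x, n + E * y⟩ : OO) := by
      apply QuadraticAlgebra.ext
      · simp [hm]
      · simp [hn]
    have hN : (M₂ + (E : OO) * (⟨x, y⟩ : OO)).norm = (m + E * x) ^ 2 + (m + E * x) * (n + E * y) - (n + E * y) ^ 2 := by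
      rw [hM, QuadraticAlgebra.norm_def]
      ring
    have hW := h3 k g c α β γ hq h5 hg hR (m + E * x) (n + E * y) (s₂ + E * z)
    have hT : TW k g c (M₂ + (E : OO) * ⟨x, y⟩) (s₂ + E * z) ↔
        q3 ∣ (s₂ + E * z) - (α * (m + E * x) ^ 2 + β * (m + E * x) * (n + E * y) + γ * (n + E * y) ^ 2) := by
      unfold TW
      rw [hN, hM]
      have e3 : q3 = (k.norm.natAbs : ℤ) ^ 3 := by rw [hq3]; push_cast; rfl
      rw [e3]
      exact hW.symm
    rw [hT]
    constructor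
    · intro h
      have e : z - (E * α * x ^ 2 + E * β * x * y + E * γ * y ^ 2 + (2 * α * m + β * n) * x + (β * m + 2 * γ * n) * y +
          v * (α * m ^ 2 + β * m * n + γ * n ^ 2 - s₂)) =
          v * ((s₂ + E * z) - (α * (m + E * x) ^ 2 + β * (m + E * x) * (n + E * y) + γ * (n + E * y) ^ 2)) +
            q3 * (u * (z - (E * α * x ^ 2 + E * β * x * y + E * γ * y ^ 2 + (2 * α * m + β * n) * x + (β * m + 2 * γ * n) * y))) := by
        linear_combination (-(z - (E * α * x ^ 2 + E * β * x * y + E * γ * y ^ 2 + (2 * α * m + β * n) * x + (β * m + 2 * γ * n) * y))) * huv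
      rw [e]
      exact dvd_add (Dvd.dvd.mul_left h v) (dvd_mul_right _ _)
    · intro h
      have e : (s₂ + E * z) - (α * (m + E * x) ^ 2 + β * (m + E * x) * (n + E * y) + γ * (n + E * y) ^ 2) =
          E * (z - (E * α * x ^ 2 + E * β * x * y + E * γ * y ^ 2 + (2 * α * m + β * n) * x + (β * m + 2 * γ * n) * y +
          v * (α * m ^ 2 + β * m * n + γ * n ^ 2 - s₂))) + q3 * (-(u * (α * m ^ 2 + β * m * n + γ * n ^ 2 - s₂))) := by
        linear_combination (α * m ^ 2 + β * m * n + γ * n ^ 2 - s₂) * huv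
      rw [e]
      exact dvd_add (Dvd.dvd.mul_left h _) (dvd_mul_right _ _)

end Pool.Agent.RF

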